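import Pool.Agent.Run7.h1.UG.Real
import Pool.Agent.R941.FJ.Hyper

/-!
# General linear groups of rings with a composition series of ideals with local units

Owner helper1.
-/

set_option autoImplicit false

namespace Pool.Agent.Run7.h1.UG

open Pool.Agent.Y110.FJ Pool.Agent.Y462.SS

/-- the group of the invertible matrices `x` such that the entries of `x - 1` are in `e B e` -/
abbrev relGL {B : Type} [Ring B] (e : B) (k : ℕ) : Subgroup (Matrix (Fin k) (Fin k) B)ˣ :=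
  relU (Matrix.scalar (Fin k) e)

section transport

variable {C : ∀ (G : Type) [Group G], Prop} (hC : Closed C) {B : Type} [Ring B]

include hC in
/-- two by two matrices of matrices -/
theorem C_two {e : B} {m : ℕ} (h : C (relGL e (2 * m))) :
    C (relU (Matrix.scalar (Fin 2) (Matrix.scalar (Fin m) e : Matrix (Fin m) (Fin m) B) :
      Matrix (Fin 2) (Fin 2) (Matrix (Fin m) (Fin m) B))) := by
  let φ : Matrix (Fin 2) (Fin 2) (Matrix (Fin m) (Fin m) B) ≃+* Matrix (Fin (2 * m)) (Fin (2 * m)) B :=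
    (Matrix.compRingEquiv (Fin 2) (Fin m) B).trans
      (Matrix.reindexAlgEquiv ℤ B (finProdFinEquiv : Fin 2 × Fin m ≃ Fin (2 * m))).toRingEquiv
  have h1 : φ (Matrix.scalar (Fin 2) (Matrix.scalar (Fin m) e : Matrix (Fin m) (Fin m) B)) =
      Matrix.scalar (Fin (2 * m)) e := by
    have h2 : Matrix.compRingEquiv (Fin 2) (Fin m) B
        (Matrix.scalar (Fin 2) (Matrix.scalar (Fin m) e : Matrix (Fin m) (Fin m) B)) =
        Matrix.scalar (Fin 2 × Fin m) e := by
      ext ⟨i, i'⟩ ⟨j, j'⟩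
      show (Matrix.diagonal (fun _ => (Matrix.diagonal (fun _ => e) : Matrix (Fin m) (Fin m) B)) :
        Matrix (Fin 2) (Fin 2) (Matrix (Fin m) (Fin m) B)) i j i' j' =
        (Matrix.diagonal (fun _ => e) : Matrix (Fin 2 × Fin m) (Fin 2 × Fin m) B) (i, i') (j, j')
      by_cases h3 : i = j
      · subst h3
        by_cases h4 : i' = j'
        · subst h4
          simp
        · rw [Matrix.diagonal_apply_eq, Matrix.diagonal_apply_ne _ h4,
            Matrix.diagonal_apply_ne _ fun h5 => h4 (congrArg Prod.snd h5)]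
      · rw [Matrix.diagonal_apply_ne _ h3,
          Matrix.diagonal_apply_ne _ fun h5 => h3 (congrArg Prod.fst h5)]
        rfl
    show Matrix.reindexAlgEquiv ℤ B (finProdFinEquiv : Fin 2 × Fin m ≃ Fin (2 * m))
      (Matrix.compRingEquiv (Fin 2) (Fin m) B
        (Matrix.scalar (Fin 2) (Matrix.scalar (Fin m) e : Matrix (Fin m) (Fin m) B))) = _
    rw [h2]
    ext i j
    show (Matrix.diagonal (fun _ => e) : Matrix (Fin 2 × Fin m) (Fin 2 × Fin m) B)
      (finProdFinEquiv.symm i) (finProdFinEquiv.symm j) =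
      (Matrix.diagonal (fun _ => e) : Matrix (Fin (2 * m)) (Fin (2 * m)) B) i j
    by_cases h3 : i = j
    · subst h3
      rw [Matrix.diagonal_apply_eq, Matrix.diagonal_apply_eq]
    · rw [Matrix.diagonal_apply_ne _ h3,
        Matrix.diagonal_apply_ne _ fun h5 => h3 (finProdFinEquiv.symm.injective h5)]
  refine C_relU_map hC φ.toRingHom φ.injective _ ?_
  show C (relU (φ (Matrix.scalar (Fin 2) (Matrix.scalar (Fin m) e : Matrix (Fin m) (Fin m) B))))
  rw [h1]
  exact h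

end transport

theorem scalar_mul_eq {B : Type} [Ring B] {m : ℕ} (e : B) (M : Matrix (Fin m) (Fin m) B) :
    (Matrix.scalar (Fin m) e : Matrix (Fin m) (Fin m) B) * M = M ↔ ∀ i j, e * M i j = M i j := by
  rw [Matrix.scalar_apply]
  constructor
  · intro h i j
    have := congrFun (congrFun h i) j
    rwa [Matrix.diagonal_mul] at this
  · intro h
    ext i j
    rw [Matrix.diagonal_mul, h]

theorem mul_scalar_eq {B : Type} [Ring B] {m : ℕ} (e : B) (M : Matrix (Fin m) (Fin m) B) :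
    M * (Matrix.scalar (Fin m) e : Matrix (Fin m) (Fin m) B) = M ↔ ∀ i j, M i j * e = M i j := by
  rw [Matrix.scalar_apply]
  constructor
  · intro h i j
    have := congrFun (congrFun h i) j
    rwa [Matrix.mul_diagonal] at this
  · intro h
    ext i j
    rw [Matrix.mul_diagonal, h]

/-- the ideal `I` has idempotent local units whose corners have general linear groups in `C` -/
def GoodIdeal (C : ∀ (G : Type) [Group G], Prop) {B : Type} [Ring B] (I : TwoSidedIdeal B) : Prop :=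
  ∀ F : Set B, F.Finite → (∀ x ∈ F, x ∈ I) → ∃ e ∈ I, e * e = e ∧ (∀ x ∈ F, e * x = x ∧ x * e = x) ∧
    ∀ k : ℕ, C (relGL e k)

/-- **extensions by congruence kernels of good ideals** -/
theorem idealStep {C : ∀ (G : Type) [Group G], Prop} (hC : ClosedE C) {B : Type} [Ring B]
    (I : TwoSidedIdeal B) (hI : GoodIdeal C I) {m : ℕ} {G : Type} [Group G]
    (u : G →* (Matrix (Fin m) (Fin m) B)ˣ) (N : Subgroup G) [N.Normal] (hQ : C (G ⧸ N))
    (hinj : ∀ n ∈ N, u n = 1 → n = 1)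
    (hN : ∀ n ∈ N, ∀ i j, ((u n : Matrix (Fin m) (Fin m) B) - 1) i j ∈ I) : C G := by
  refine Pool.Agent.N24.FV.crit hC G N hQ fun g E hE hEN => ?_
  -- the first idempotent
  obtain ⟨e, heI, hee, he, -⟩ := hI
    (⋃ n ∈ E, Set.range fun p : Fin m × Fin m => ((u n : Matrix (Fin m) (Fin m) B) - 1) p.1 p.2)
    (hE.biUnion fun n _ => Set.finite_range _) (by
      intro x hx
      simp only [Set.mem_iUnion, Set.mem_range] at hx
      obtain ⟨n, hn, p, rfl⟩ := hx
      exact hN n (hEN hn) _ _)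
  have he' : ∀ n ∈ E, ∀ i j, e * ((u n : Matrix (Fin m) (Fin m) B) - 1) i j =
      ((u n : Matrix (Fin m) (Fin m) B) - 1) i j ∧
      ((u n : Matrix (Fin m) (Fin m) B) - 1) i j * e =
      ((u n : Matrix (Fin m) (Fin m) B) - 1) i j := by
    intro n hn i j
    refine he _ ?_
    simp only [Set.mem_iUnion, Set.mem_range]
    exact ⟨n, hn, (i, j), rfl⟩
  -- the second idempotent
  obtain ⟨X, hX⟩ : ∃ X : Matrix (Fin m) (Fin m) B, X = (u g : Matrix (Fin m) (Fin m) B) *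
    Matrix.scalar (Fin m) e := ⟨_, rfl⟩
  obtain ⟨Y, hY⟩ : ∃ Y : Matrix (Fin m) (Fin m) B, Y = Matrix.scalar (Fin m) e *
    ((u g)⁻¹ : (Matrix (Fin m) (Fin m) B)ˣ) := ⟨_, rfl⟩
  have hXI : ∀ i j, X i j ∈ I := by
    intro i j
    rw [hX, Matrix.scalar_apply, Matrix.mul_diagonal]
    exact I.mul_mem_left _ _ heI
  have hYI : ∀ i j, Y i j ∈ I := by
    intro i j
    rw [hY, Matrix.scalar_apply, Matrix.diagonal_mul]
    exact I.mul_mem_right _ _ heI
  obtain ⟨f, -, hff, hf, hfC⟩ := hI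
    ({e} ∪ ((Set.range fun p : Fin m × Fin m => X p.1 p.2) ∪
      (Set.range fun p : Fin m × Fin m => Y p.1 p.2)))
    ((Set.finite_singleton e).union ((Set.finite_range _).union (Set.finite_range _))) (by
      rintro x (rfl | ⟨p, rfl⟩ | ⟨p, rfl⟩)
      · exact heI
      · exact hXI _ _
      · exact hYI _ _)
  obtain ⟨hfe, hef⟩ := hf e (Or.inl rfl)
  have hfX : ∀ i j, f * X i j = X i j ∧ X i j * f = X i j := fun i j =>
    hf _ (Or.inr (Or.inl ⟨(i, j), rfl⟩))
  have hfY : ∀ i j, f * Y i j = Y i j ∧ Y i j * f = Y i j := fun i j =>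
    hf _ (Or.inr (Or.inr ⟨(i, j), rfl⟩))
  refine realU (R := Matrix (Fin m) (Fin m) B) u g E (Matrix.scalar (Fin m) e)
    (Matrix.scalar (Fin m) f) ?_ ?_ ?_ ?_ ?_ ?_ ?_ ?_ (fun n hn => ⟨?_, ?_⟩) (fun n hn h1 => ?_)
    (C_two hC.base (hfC (2 * m)))
  · rw [← map_mul, hff]
  · rw [← map_mul, hee]
  · rw [← map_mul, hfe]
  · rw [← map_mul, hef]
  · rw [← hX, scalar_mul_eq]
    exact fun i j => (hfX i j).1
  · rw [← hX, mul_scalar_eq]
    exact fun i j => (hfX i j).2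
  · rw [← hY, scalar_mul_eq]
    exact fun i j => (hfY i j).1
  · rw [← hY, mul_scalar_eq]
    exact fun i j => (hfY i j).2
  · rw [scalar_mul_eq]
    exact fun i j => (he' n hn i j).1
  · rw [mul_scalar_eq]
    exact fun i j => (he' n hn i j).2
  · refine hinj n ?_ h1
    have h2 : Subgroup.closure (E ∪ (fun x => g * x * g⁻¹) '' E) ≤ N := by
      rw [Subgroup.closure_le]
      refine Set.union_subset hEN ?_
      rintro _ ⟨x, hx, rfl⟩
      exact Subgroup.Normal.conj_mem inferInstance x (hEN hx) g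
    exact h2 hn

section chain

variable {A : Type} [Ring A] {m : ℕ}

/-- the reduction of the invertible matrices modulo an ideal -/
def red (J : TwoSidedIdeal A) (m : ℕ) :
    (Matrix (Fin m) (Fin m) A)ˣ →* (Matrix (Fin m) (Fin m) J.ringCon.Quotient)ˣ :=
  Units.map (J.ringCon.mk'.mapMatrix : Matrix (Fin m) (Fin m) A →+*
    Matrix (Fin m) (Fin m) J.ringCon.Quotient)

/-- the congruence subgroup -/
def cg (J : TwoSidedIdeal A) (m : ℕ) : Subgroup (Matrix (Fin m) (Fin m) A)ˣ := (red J m).ker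

instance (J : TwoSidedIdeal A) : (cg J m).Normal := inferInstanceAs (red J m).ker.Normal

theorem mk'_eq (J : TwoSidedIdeal A) (x y : A) : J.ringCon.mk' x = J.ringCon.mk' y ↔ x - y ∈ J := by
  rw [← J.rel_iff]
  exact RingCon.eq _

theorem mem_cg {J : TwoSidedIdeal A} {x : (Matrix (Fin m) (Fin m) A)ˣ} :
    x ∈ cg J m ↔ ∀ i j, ((x : Matrix (Fin m) (Fin m) A) - 1) i j ∈ J := by
  unfold cg
  rw [MonoidHom.mem_ker, Units.ext_iff, ← Matrix.ext_iff]
  have h1 : ∀ i j, (1 : Matrix (Fin m) (Fin m) J.ringCon.Quotient) i j =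
      J.ringCon.mk' ((1 : Matrix (Fin m) (Fin m) A) i j) := by
    intro i j
    rw [Matrix.one_apply, Matrix.one_apply]
    split_ifs
    · rw [map_one]
    · rw [map_zero]
  refine forall_congr' fun i => forall_congr' fun j => ?_
  rw [Units.val_one, h1]
  show J.ringCon.mk' ((x : Matrix (Fin m) (Fin m) A) i j) = _ ↔ _
  rw [mk'_eq]
  rfl

theorem cg_mono {J J' : TwoSidedIdeal A} (h : J ≤ J') : cg J m ≤ cg J' m := by
  intro x hx
  rw [mem_cg] at hx ⊢
  exact fun i j => h (hx i j)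

/-- the ideal generated in the quotient -/
def imageIdeal (J J' : TwoSidedIdeal A) : TwoSidedIdeal J.ringCon.Quotient :=
  TwoSidedIdeal.mk' {y | ∃ x ∈ J', J.ringCon.mk' x = y}
    ⟨0, J'.zero_mem, map_zero _⟩
    (by rintro _ _ ⟨x, hx, rfl⟩ ⟨y, hy, rfl⟩; exact ⟨x + y, J'.add_mem hx hy, map_add _ _ _⟩)
    (by rintro _ ⟨x, hx, rfl⟩; exact ⟨-x, J'.neg_mem hx, map_neg _ _⟩)
    (by
      rintro a _ ⟨x, hx, rfl⟩
      obtain ⟨b, rfl⟩ := J.ringCon.mk'_surjective a
      exact ⟨b * x, J'.mul_mem_left _ _ hx, map_mul _ _ _⟩)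
    (by
      rintro _ a ⟨x, hx, rfl⟩
      obtain ⟨b, rfl⟩ := J.ringCon.mk'_surjective a
      exact ⟨x * b, J'.mul_mem_right _ _ hx, map_mul _ _ _⟩)

theorem mem_imageIdeal {J J' : TwoSidedIdeal A} {y : J.ringCon.Quotient} :
    y ∈ imageIdeal J J' ↔ ∃ x ∈ J', J.ringCon.mk' x = y := by
  unfold imageIdeal
  rw [TwoSidedIdeal.mem_mk']
  rfl

/-- congruence subgroups modulo ideals with square in `J` -/
theorem comm_mem {J J' : TwoSidedIdeal A} (h : ∀ a ∈ J', ∀ b ∈ J', a * b ∈ J)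
    (a b : (Matrix (Fin m) (Fin m) A)ˣ) (ha : a ∈ cg J' m) (hb : b ∈ cg J' m) :
    a * b * a⁻¹ * b⁻¹ ∈ cg J m := by
  rw [mem_cg] at ha hb
  obtain ⟨z, hz⟩ : ∃ z : (Matrix (Fin m) (Fin m) A)ˣ, z = a * b * a⁻¹ * b⁻¹ := ⟨_, rfl⟩
  have h1 : ∀ (x y : (Matrix (Fin m) (Fin m) A)ˣ), (∀ i j, ((x : Matrix (Fin m) (Fin m) A) - 1) i j ∈ J') →
      (∀ i j, ((y : Matrix (Fin m) (Fin m) A) - 1) i j ∈ J') → ∀ i j,
      ((((x : Matrix (Fin m) (Fin m) A) - 1) * ((y : Matrix (Fin m) (Fin m) A) - 1)) i j) ∈ J := by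
    intro x y hx hy i j
    rw [Matrix.mul_apply]
    exact sum_mem fun l _ => h _ (hx _ _) _ (hy _ _)
  have h2 : (z : Matrix (Fin m) (Fin m) A) - 1 =
      (((a : Matrix (Fin m) (Fin m) A) - 1) * ((b : Matrix (Fin m) (Fin m) A) - 1) -
        ((b : Matrix (Fin m) (Fin m) A) - 1) * ((a : Matrix (Fin m) (Fin m) A) - 1)) *
        ((a⁻¹ * b⁻¹ : (Matrix (Fin m) (Fin m) A)ˣ) : Matrix (Fin m) (Fin m) A) := by
    have h3 : ((a : Matrix (Fin m) (Fin m) A) - 1) * ((b : Matrix (Fin m) (Fin m) A) - 1) -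
        ((b : Matrix (Fin m) (Fin m) A) - 1) * ((a : Matrix (Fin m) (Fin m) A) - 1) =
        ((a * b : (Matrix (Fin m) (Fin m) A)ˣ) : Matrix (Fin m) (Fin m) A) -
        ((b * a : (Matrix (Fin m) (Fin m) A)ˣ) : Matrix (Fin m) (Fin m) A) := by
      rw [Units.val_mul, Units.val_mul]
      noncomm_ring
    rw [h3, sub_mul, ← Units.val_mul, ← Units.val_mul, hz]
    have h4 : a * b * (a⁻¹ * b⁻¹) = a * b * a⁻¹ * b⁻¹ := by group
    have h5 : b * a * (a⁻¹ * b⁻¹) = 1 := by group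
    rw [h4, h5, Units.val_one]
  rw [← hz, mem_cg]
  intro i j
  rw [h2, Matrix.mul_apply]
  refine sum_mem fun l _ => J.mul_mem_right _ _ ?_
  exact J.sub_mem (h1 a b ha hb _ _) (h1 b a hb ha _ _)

/-- **rings with a composition series of ideals which are good or have square zero** -/
theorem chain {C : ∀ (G : Type) [Group G], Prop} (hC : ClosedE C)
    (hmet : ∀ (S : Type) [Group S],
      (∀ a ∈ commutator S, ∀ b ∈ commutator S, a * b = b * a) → C S)
    (𝒮 : Set (TwoSidedIdeal A)) (h0 : ⊥ ∈ 𝒮)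
    (hun : ∀ c ⊆ 𝒮, c.Nonempty → IsChain (· ≤ ·) c → ∀ U : TwoSidedIdeal A,
      (∀ x, x ∈ U ↔ ∃ J ∈ c, x ∈ J) → U ∈ 𝒮)
    (h : ∀ J ∈ 𝒮, J ≠ ⊤ → ∃ J' ∈ 𝒮, J < J' ∧
      (GoodIdeal C (imageIdeal J J') ∨ ∀ a ∈ J', ∀ b ∈ J', a * b ∈ J)) (m : ℕ) :
    C (Matrix (Fin m) (Fin m) A)ˣ := by
  obtain ⟨S, hS⟩ : ∃ S : Set (TwoSidedIdeal A), S = {J | J ∈ 𝒮 ∧
    ∀ g : (Matrix (Fin m) (Fin m) A)ˣ, C ↥(cg J m ⊔ Subgroup.zpowers g)} := ⟨_, rfl⟩
  have hbot : (⊥ : TwoSidedIdeal A) ∈ S := by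
    rw [hS]
    refine ⟨h0, fun g => ?_⟩
    have h1 : cg (⊥ : TwoSidedIdeal A) m = ⊥ := by
      rw [eq_bot_iff]
      intro x hx
      rw [mem_cg] at hx
      rw [Subgroup.mem_bot]
      apply Units.ext
      rw [Units.val_one, ← sub_eq_zero]
      ext i j
      exact (TwoSidedIdeal.mem_bot A).1 (hx i j)
    rw [h1, bot_sup_eq]
    exact Pool.Agent.R941.FJ.C_cyc hC.base g
  obtain ⟨J, -, hJ⟩ := zorn_le_nonempty₀ S (fun c hc hch y hy => by
    have hdir : DirectedOn (· ≤ ·) c := hch.directedOn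
    -- the union of the chain
    let U : TwoSidedIdeal A := TwoSidedIdeal.mk' {x | ∃ J ∈ c, x ∈ J}
      ⟨y, hy, y.zero_mem⟩
      (by
        rintro a b ⟨J1, h1, ha⟩ ⟨J2, h2, hb⟩
        obtain ⟨J3, h3, h13, h23⟩ := hdir J1 h1 J2 h2
        exact ⟨J3, h3, J3.add_mem (h13 ha) (h23 hb)⟩)
      (by rintro a ⟨J1, h1, ha⟩; exact ⟨J1, h1, J1.neg_mem ha⟩)
      (by rintro a b ⟨J1, h1, ha⟩; exact ⟨J1, h1, J1.mul_mem_left _ _ ha⟩)
      (by rintro a b ⟨J1, h1, ha⟩; exact ⟨J1, h1, J1.mul_mem_right _ _ ha⟩)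
    have hU : ∀ x, x ∈ U ↔ ∃ J ∈ c, x ∈ J := by
      intro x
      show x ∈ TwoSidedIdeal.mk' _ _ _ _ _ _ ↔ _
      rw [TwoSidedIdeal.mem_mk']
      rfl
    have hle : ∀ J ∈ c, J ≤ U := fun J hJc x hx => (hU x).2 ⟨J, hJc, hx⟩
    refine ⟨U, ?_, hle⟩
    rw [hS]
    refine ⟨hun c (fun J hJ => by have h1 := hc hJ; rw [hS] at h1; exact h1.1) ⟨y, hy⟩ hch U hU,
      fun g => ?_⟩
    -- finitely many entries lie in one member of the chain
    have hent : ∀ x : (Matrix (Fin m) (Fin m) A)ˣ, x ∈ cg U m → ∃ J ∈ c, x ∈ cg J m := by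
      intro x hx
      rw [mem_cg] at hx
      have h1 : ∀ p : Fin m × Fin m, ∃ J ∈ c, ((x : Matrix (Fin m) (Fin m) A) - 1) p.1 p.2 ∈ J :=
        fun p => (hU _).1 (hx p.1 p.2)
      choose F hFc hF using h1
      have h2 : ∀ s : Finset (Fin m × Fin m), ∃ J ∈ c, ∀ p ∈ s, F p ≤ J := by
        intro s
        classical
        induction s using Finset.induction_on with
        | empty => exact ⟨y, hy, fun p hp => absurd hp (Finset.notMem_empty p)⟩
        | insert a s _ ih =>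
          obtain ⟨J1, h1, h2⟩ := ih
          obtain ⟨J3, h3, h13, h23⟩ := hdir J1 h1 (F a) (hFc a)
          refine ⟨J3, h3, fun p hp => ?_⟩
          rcases Finset.mem_insert.1 hp with rfl | hp
          · exact h23
          · exact (h2 p hp).trans h13
      obtain ⟨J, hJc, hJ⟩ := h2 Finset.univ
      exact ⟨J, hJc, mem_cg.2 fun i j => hJ (i, j) (Finset.mem_univ _) (hF (i, j))⟩
    have hne : Nonempty c := ⟨⟨y, hy⟩⟩
    refine Pool.Agent.Y430.SS.of_directed hC.base _ c (fun i j => ?_)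
      (fun J => (cg J.1 m ⊔ Subgroup.zpowers g).subgroupOf (cg U m ⊔ Subgroup.zpowers g)) ?_ ?_ ?_
    · obtain ⟨k, hk, h1, h2⟩ := hdir i.1 i.2 j.1 j.2
      exact ⟨⟨k, hk⟩, h1, h2⟩
    · intro i j hij
      exact Subgroup.comap_mono (sup_le_sup_right (cg_mono hij) _)
    · rintro ⟨x, hx⟩
      obtain ⟨a, ha, b, hb, hab⟩ := Pool.Agent.R941.FJ.mem_sup_normal.1 hx
      obtain ⟨J, hJc, hJ⟩ := hent a ha
      refine ⟨⟨J, hJc⟩, ?_⟩
      rw [Subgroup.mem_subgroupOf]
      show x ∈ cg J m ⊔ Subgroup.zpowers g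
      rw [← hab]
      exact mul_mem (Subgroup.mem_sup_left hJ) (Subgroup.mem_sup_right hb)
    · intro i
      have h1 := hc i.2
      rw [hS] at h1
      exact Pool.Agent.R941.FJ.C_equiv hC.base
        (Subgroup.subgroupOfEquivOfLe (sup_le_sup_right (cg_mono (hle i.1 i.2)) _)) (h1.2 g)) ⊥ hbot
  have hJS : J ∈ S := hJ.prop
  rw [hS] at hJS
  obtain ⟨hJ𝒮, hJS'⟩ := hJS
  have heq : J = ⊤ := by
    by_contra hne
    obtain ⟨J', hJ'𝒮, hlt, hgood⟩ := h J hJ𝒮 hne
    have h1 : J' ∈ S := by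
      rw [hS]
      refine ⟨hJ'𝒮, fun g => ?_⟩
      refine Pool.Agent.R941.FJ.step hC hJS' (cg_mono hlt.le) (fun g => ?_) g
      rcases hgood with hgood | hsq
      swap
      · exact Pool.Agent.R941.FJ.factor_ab hC hmet (cg J m) (cg J' m)
          (fun a ha b hb => comm_mem hsq a b ha hb) g
      -- the factor
      obtain ⟨D, hD⟩ : ∃ D : Subgroup ((Matrix (Fin m) (Fin m) A)ˣ ⧸ cg J m),
        D = (cg J' m ⊔ Subgroup.zpowers g).map (QuotientGroup.mk' (cg J m)) := ⟨_, rfl⟩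
      rw [← hD]
      let v : ((Matrix (Fin m) (Fin m) A)ˣ ⧸ cg J m) →*
        (Matrix (Fin m) (Fin m) J.ringCon.Quotient)ˣ := QuotientGroup.kerLift (red J m)
      have hv : Function.Injective v := QuotientGroup.kerLift_injective (red J m)
      have hvmk : ∀ x, v (QuotientGroup.mk' (cg J m) x) = red J m x := fun x => rfl
      obtain ⟨L, hL⟩ : ∃ L : Subgroup ((Matrix (Fin m) (Fin m) A)ˣ ⧸ cg J m),
        L = (cg J' m).map (QuotientGroup.mk' (cg J m)) := ⟨_, rfl⟩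
      have hLn : L.Normal := by
        rw [hL]
        exact Subgroup.Normal.map inferInstance _ (QuotientGroup.mk'_surjective _)
      have hD' : D = L ⊔ Subgroup.zpowers (QuotientGroup.mk' (cg J m) g) := by
        rw [hD, hL, Subgroup.map_sup, MonoidHom.map_zpowers]
      refine idealStep hC (imageIdeal J J') hgood (v.comp D.subtype) (L.subgroupOf D) ?_
        (fun n _ h2 => ?_) (fun n hn i j => ?_)
      · -- the quotient is cyclic
        have hgD : QuotientGroup.mk' (cg J m) g ∈ D := by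
          rw [hD']
          exact Subgroup.mem_sup_right (Subgroup.mem_zpowers _)
        have h2 : ∀ x : D ⧸ L.subgroupOf D,
            x ∈ Subgroup.zpowers (QuotientGroup.mk (s := L.subgroupOf D) ⟨_, hgD⟩) := by
          intro x
          obtain ⟨⟨y, hy⟩, rfl⟩ := QuotientGroup.mk_surjective x
          have hy' := hy
          rw [hD'] at hy'
          obtain ⟨a, ha, b, hb, hab⟩ := Pool.Agent.R941.FJ.mem_sup_normal.1 hy'
          obtain ⟨k, rfl⟩ := Subgroup.mem_zpowers_iff.1 hb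
          rw [Subgroup.mem_zpowers_iff]
          refine ⟨k, ?_⟩
          rw [← QuotientGroup.mk_zpow, eq_comm, ← mul_inv_eq_one, ← QuotientGroup.mk_inv,
            ← QuotientGroup.mk_mul, QuotientGroup.eq_one_iff, Subgroup.mem_subgroupOf]
          show y * ((QuotientGroup.mk' (cg J m) g) ^ k)⁻¹ ∈ L
          rw [← hab, mul_inv_cancel_right]
          exact ha
        have h3 : Subgroup.zpowers (QuotientGroup.mk (s := L.subgroupOf D) ⟨_, hgD⟩) = ⊤ :=
          (Subgroup.eq_top_iff' _).2 h2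
        refine Pool.Agent.R941.FJ.C_equiv hC.base Subgroup.topEquiv.symm ?_
        rw [← h3]
        exact Pool.Agent.R941.FJ.C_cyc hC.base _
      · exact Subtype.ext (hv (h2.trans (map_one v).symm))
      · rw [Subgroup.mem_subgroupOf, hL] at hn
        obtain ⟨x, hx, hxn⟩ := hn
        rw [mem_imageIdeal]
        refine ⟨_, mem_cg.1 hx i j, ?_⟩
        show _ = ((v (n : (Matrix (Fin m) (Fin m) A)ˣ ⧸ cg J m) :
          (Matrix (Fin m) (Fin m) J.ringCon.Quotient)ˣ) :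
          Matrix (Fin m) (Fin m) J.ringCon.Quotient) i j - (1 : Matrix _ _ _) i j
        rw [← hxn, hvmk, Matrix.sub_apply, map_sub]
        congr 1
        rw [Matrix.one_apply, Matrix.one_apply]
        split_ifs
        · rw [map_one]
        · rw [map_zero]
    exact absurd (hJ.le_of_ge h1 hlt.le) (not_le_of_gt hlt)
  subst heq
  have h1 : cg (⊤ : TwoSidedIdeal A) m ⊔ Subgroup.zpowers 1 = ⊤ := by
    rw [eq_top_iff]
    intro x _
    exact Subgroup.mem_sup_left (mem_cg.2 fun i j => TwoSidedIdeal.mem_top A)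
  have h2 := hJS' 1
  rw [h1] at h2
  exact Pool.Agent.R941.FJ.C_equiv hC.base Subgroup.topEquiv.symm h2

/-- `GoodIdeal` for the image of `J'` modulo `J` in terms of elements -/
theorem good_of {C : ∀ (G : Type) [Group G], Prop} {J J' : TwoSidedIdeal A}
    (h : ∀ F : Set A, F.Finite → (∀ x ∈ F, x ∈ J') → ∃ e ∈ J', e * e - e ∈ J ∧
      (∀ x ∈ F, e * x - x ∈ J ∧ x * e - x ∈ J) ∧ ∀ k : ℕ, C (relGL (J.ringCon.mk' e) k)) :
    GoodIdeal C (imageIdeal J J') := by
  intro F hF hFJ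
  have h1 : ∀ y : J.ringCon.Quotient, ∃ x : A, y ∈ F → x ∈ J' ∧ J.ringCon.mk' x = y := by
    intro y
    by_cases hy : y ∈ F
    · obtain ⟨x, hx, hxy⟩ := mem_imageIdeal.1 (hFJ y hy)
      exact ⟨x, fun _ => ⟨hx, hxy⟩⟩
    · exact ⟨0, fun h => absurd h hy⟩
  choose σ hσ using h1
  obtain ⟨e, heJ, hee, he, heC⟩ := h (σ '' F) (hF.image σ) (by
    rintro _ ⟨y, hy, rfl⟩
    exact (hσ y hy).1)
  refine ⟨J.ringCon.mk' e, mem_imageIdeal.2 ⟨e, heJ, rfl⟩, ?_, fun y hy => ?_, heC⟩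
  · rw [← map_mul]
    exact (mk'_eq J _ _).2 hee
  · obtain ⟨h2, h3⟩ := he (σ y) ⟨y, hy, rfl⟩
    have h4 := (hσ y hy).2
    rw [← h4, ← map_mul, ← map_mul]
    exact ⟨(mk'_eq J _ _).2 h2, (mk'_eq J _ _).2 h3⟩

end chain

end Pool.Agent.Run7.h1.UG
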