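import Pool.Agent.N24.FV.Fs

/-!
# Units of rings relative to idempotents: realization of conjugations

Owner helper1.
-/

set_option autoImplicit false

namespace Pool.Agent.Run7.h1.UG

open Pool.Agent.Y110.FJ Pool.Agent.Y462.SS

section rel

variable {R : Type} [Ring R]

/-- The units `x` of `R` with `x - 1` in `e R e`, for an idempotent `e`. This group is isomorphic to
the group of units of the ring `e R e`. -/
def relU (e : R) : Subgroup Rˣ where
  carrier := {x | e * ((x : R) - 1) = x - 1 ∧ ((x : R) - 1) * e = x - 1}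
  one_mem' := by simp
  mul_mem' := by
    rintro x y ⟨hx, hx'⟩ ⟨hy, hy'⟩
    have h1 : ((x * y : Rˣ) : R) - 1 = ((x : R) - 1) * (y : R) + ((y : R) - 1) := by
      rw [Units.val_mul]
      noncomm_ring
    have h2 : ((x * y : Rˣ) : R) - 1 = (x : R) * ((y : R) - 1) + ((x : R) - 1) := by
      rw [Units.val_mul]
      noncomm_ring
    constructor
    · rw [h1, mul_add, ← mul_assoc, hx, hy]
    · rw [h2, add_mul, mul_assoc, hx', hy']
  inv_mem' := by
    rintro x ⟨hx, hx'⟩
    have h1 : ((x⁻¹ : Rˣ) : R) - 1 = -(((x : R) - 1) * ((x⁻¹ : Rˣ) : R)) := by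
      rw [sub_mul, Units.mul_inv, one_mul, neg_sub]
    have h2 : ((x⁻¹ : Rˣ) : R) - 1 = -(((x⁻¹ : Rˣ) : R) * ((x : R) - 1)) := by
      rw [mul_sub, Units.inv_mul, mul_one, neg_sub]
    constructor
    · rw [h1, mul_neg, ← mul_assoc, hx]
    · rw [h2, neg_mul, mul_assoc, hx']

theorem mem_relU {e : R} {x : Rˣ} :
    x ∈ relU e ↔ e * ((x : R) - 1) = x - 1 ∧ ((x : R) - 1) * e = x - 1 := Iff.rfl

/-- transport along ring homomorphisms -/
theorem C_relU_map {C : ∀ (G : Type) [Group G], Prop} (hC : Closed C) {R' : Type} [Ring R']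
    (φ : R →+* R') (hφ : Function.Injective φ) (e : R) (h : C (relU (φ e))) : C (relU e) := by
  refine hC.of_injective _ _ (((Units.map (φ : R →* R')).comp (relU e).subtype).codRestrict
    (relU (φ e)) fun x => ?_) ?_ h
  · obtain ⟨x, hx, hx'⟩ := x
    constructor
    · show φ e * (φ (x : R) - 1) = φ (x : R) - 1
      rw [← map_one φ, ← map_sub, ← map_mul, hx]
    · show (φ (x : R) - 1) * φ e = φ (x : R) - 1
      rw [← map_one φ, ← map_sub, ← map_mul, hx']
  · intro x y hxy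
    have h1 : φ (x.1 : R) = φ (y.1 : R) := congrArg (fun z : relU (φ e) => (z.1 : R')) hxy
    exact Subtype.ext (Units.ext (hφ h1))

/-- the matrix `diag (x, 1)` -/
def dg : Rˣ →* (Matrix (Fin 2) (Fin 2) R)ˣ where
  toFun x := ⟨!![(x : R), 0; 0, 1], !![((x⁻¹ : Rˣ) : R), 0; 0, 1], by
    rw [Matrix.mul_fin_two, Matrix.one_fin_two]; simp, by
    rw [Matrix.mul_fin_two, Matrix.one_fin_two]; simp⟩
  map_one' := by
    apply Units.ext
    show !![((1 : Rˣ) : R), 0; 0, 1] = 1
    rw [Matrix.one_fin_two, Units.val_one]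
  map_mul' x y := by
    apply Units.ext
    show !![((x * y : Rˣ) : R), 0; 0, 1] = !![(x : R), 0; 0, 1] * !![(y : R), 0; 0, 1]
    rw [Matrix.mul_fin_two]
    simp

theorem dg_injective : Function.Injective (dg (R := R)) := by
  intro x y hxy
  have h1 := congrArg (fun M : (Matrix (Fin 2) (Fin 2) R)ˣ => (M : Matrix (Fin 2) (Fin 2) R) 0 0) hxy
  exact Units.ext h1

theorem dg_mem {f : R} {x : Rˣ} (h : x ∈ relU f) :
    dg x ∈ relU (Matrix.scalar (Fin 2) f : Matrix (Fin 2) (Fin 2) R) := by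
  obtain ⟨h1, h2⟩ := h
  have h3 : (Matrix.scalar (Fin 2) f : Matrix (Fin 2) (Fin 2) R) = !![f, 0; 0, f] := by
    ext i j
    fin_cases i <;> fin_cases j <;> simp
  have h4 : ((dg x : (Matrix (Fin 2) (Fin 2) R)ˣ) : Matrix (Fin 2) (Fin 2) R) - 1 =
      !![(x : R) - 1, 0; 0, 0] := by
    show !![(x : R), 0; 0, 1] - 1 = _
    rw [Matrix.one_fin_two]
    ext i j
    fin_cases i <;> fin_cases j <;> simp
  refine mem_relU.2 ⟨?_, ?_⟩
  · rw [h3, h4, Matrix.mul_fin_two, h1]
    simp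
  · rw [h3, h4, Matrix.mul_fin_two, h2]
    simp

/-- the identities between two equivalent idempotents `e = y x` and `x y` below `f` -/
structure Eqv (e f x y : R) : Prop where
  ff : f * f = f
  fe : f * e = e
  ef : e * f = e
  ee : e * e = e
  yx : y * x = e
  xe : x * e = x
  ey : e * y = y
  fx : f * x = x
  xf : x * f = x
  fy : f * y = y
  yf : y * f = y

namespace Eqv

variable {e f x y : R} (h : Eqv e f x y)

include h

theorem fxy : f * (x * y) = x * y := by rw [← mul_assoc, h.fx]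

theorem xyf : x * y * f = x * y := by rw [mul_assoc, h.yf]

theorem xyxy : x * y * (x * y) = x * y := by
  rw [mul_assoc, ← mul_assoc y x y, h.yx, h.ey]

theorem xyx : x * y * x = x := by rw [mul_assoc, h.yx, h.xe]

theorem yxy : y * (x * y) = y := by rw [← mul_assoc, h.yx, h.ey]

theorem l1 : (x + 1 - f) * (y + 1 - f) = x * y + 1 - f := by
  simp only [mul_add, add_mul, mul_sub, sub_mul, mul_one, one_mul, h.xf, h.fy, h.ff]
  abel

theorem l2 : (f - x * y) * (f - x * y) = f - x * y := by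
  simp only [mul_sub, sub_mul, h.ff, h.fxy, h.xyf, h.xyxy]
  abel

theorem l3 : (x + 1 - f) * (f - e) = 0 := by
  simp only [add_mul, mul_sub, sub_mul, one_mul, h.xf, h.xe, h.ff, h.fe]
  abel

theorem l4 : (f - x * y) * (x + 1 - f) = 0 := by
  simp only [mul_add, mul_sub, sub_mul, mul_one, h.fx, h.xyx, h.ff, h.xyf]
  abel

theorem l5 : (f - e) * (y + 1 - f) = 0 := by
  simp only [mul_add, mul_sub, sub_mul, mul_one, h.fy, h.ey, h.ff, h.ef]
  abel

theorem l6 : (y + 1 - f) * (f - x * y) = 0 := by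
  simp only [add_mul, mul_sub, sub_mul, one_mul, h.yf, h.yxy, h.ff, h.fxy]
  abel

theorem l7 : (f - e) * (f - e) = f - e := by
  simp only [mul_sub, sub_mul, h.ff, h.fe, h.ef, h.ee]
  abel

theorem l8 : (y + 1 - f) * (x + 1 - f) = e + 1 - f := by
  simp only [mul_add, add_mul, mul_sub, sub_mul, mul_one, one_mul, h.ff, h.yx, h.yf, h.fx]
  abel

end Eqv

variable {e f x y : R}

/-- the unit which conjugates `e` to `x y` -/
def wu (h : Eqv e f x y) : (Matrix (Fin 2) (Fin 2) R)ˣ where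
  val := !![x + 1 - f, f - x * y; f - e, y + 1 - f]
  inv := !![y + 1 - f, f - e; f - x * y, x + 1 - f]
  val_inv := by
    rw [Matrix.mul_fin_two, Matrix.one_fin_two, h.l1, h.l2, h.l3, h.l4, h.l5, h.l6, h.l7, h.l8]
    simp
  inv_val := by
    rw [Matrix.mul_fin_two, Matrix.one_fin_two, h.l1, h.l2, h.l3, h.l4, h.l5, h.l6, h.l7, h.l8]
    simp

theorem wu_mem (h : Eqv e f x y) :
    wu h ∈ relU (Matrix.scalar (Fin 2) f : Matrix (Fin 2) (Fin 2) R) := by
  have h3 : (Matrix.scalar (Fin 2) f : Matrix (Fin 2) (Fin 2) R) = !![f, 0; 0, f] := by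
    ext i j
    fin_cases i <;> fin_cases j <;> simp
  have h4 : ((wu h : (Matrix (Fin 2) (Fin 2) R)ˣ) : Matrix (Fin 2) (Fin 2) R) - 1 =
      !![x - f, f - x * y; f - e, y - f] := by
    show !![x + 1 - f, f - x * y; f - e, y + 1 - f] - 1 = _
    rw [Matrix.one_fin_two]
    ext i j
    fin_cases i <;> fin_cases j <;> simp <;> abel
  refine mem_relU.2 ⟨?_, ?_⟩
  · rw [h3, h4, Matrix.mul_fin_two]
    simp only [mul_sub, h.fx, h.ff, h.fe, h.fy, h.fxy, zero_mul, add_zero, zero_add, sub_zero]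
  · rw [h3, h4, Matrix.mul_fin_two]
    simp only [sub_mul, h.xf, h.ff, h.ef, h.yf, h.xyf, mul_zero, add_zero, zero_add, sub_zero]

/-- the conjugation by `wu` -/
theorem wu_conj (h : Eqv e f x y) (n n' : Rˣ) (z : R) (hn : (n : R) = 1 + z) (hez : e * z = z)
    (hze : z * e = z) (hn' : (n' : R) = 1 + x * z * y) : wu h * dg n = dg n' * wu h := by
  have hfz : f * z = z := by rw [← hez, ← mul_assoc, h.fe]
  apply Units.ext
  show !![x + 1 - f, f - x * y; f - e, y + 1 - f] * !![(n : R), 0; 0, 1] =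
    !![(n' : R), 0; 0, 1] * !![x + 1 - f, f - x * y; f - e, y + 1 - f]
  rw [Matrix.mul_fin_two, Matrix.mul_fin_two, hn, hn']
  have b1 : x * z * y * x = x * z := by rw [mul_assoc, h.yx, mul_assoc, hze]
  have b2 : x * z * y * f = x * z * y := by rw [mul_assoc, h.yf]
  have b3 : x * z * y * (x * y) = x * z * y := by rw [mul_assoc, h.yxy]
  have e11 : (x + 1 - f) * (1 + z) + (f - x * y) * 0 =
      (1 + x * z * y) * (x + 1 - f) + 0 * (f - e) := by
    simp only [mul_add, add_mul, mul_sub, sub_mul, mul_one, one_mul, mul_zero, zero_mul, add_zero,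
      hfz, b1, b2]
    abel
  have e12 : (x + 1 - f) * 0 + (f - x * y) * 1 =
      (1 + x * z * y) * (f - x * y) + 0 * (y + 1 - f) := by
    simp only [add_mul, mul_sub, mul_one, one_mul, mul_zero, zero_mul, add_zero, zero_add, b2, b3]
    abel
  have e21 : (f - e) * (1 + z) + (y + 1 - f) * 0 = 0 * (x + 1 - f) + 1 * (f - e) := by
    simp only [mul_add, sub_mul, mul_one, one_mul, mul_zero, zero_mul, add_zero, zero_add, hfz, hez]
    abel
  have e22 : (f - e) * 0 + (y + 1 - f) * 1 = 0 * (f - x * y) + 1 * (y + 1 - f) := by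
    simp
  rw [e11, e12, e21, e22]

end rel

/-- **realization in the units of a corner** -/
theorem realU {C : ∀ (G : Type) [Group G], Prop} {G R : Type} [Group G] [Ring R] (u : G →* Rˣ)
    (g : G) (E : Set G) (e f : R) (hff : f * f = f) (hee : e * e = e) (hfe : f * e = e)
    (hef : e * f = e) (h1 : f * ((u g : R) * e) = (u g : R) * e)
    (h2 : (u g : R) * e * f = (u g : R) * e) (h3 : f * (e * ((u g)⁻¹ : Rˣ)) = e * ((u g)⁻¹ : Rˣ))
    (h4 : e * ((u g)⁻¹ : Rˣ) * f = e * ((u g)⁻¹ : Rˣ))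
    (hE : ∀ n ∈ E, e * ((u n : R) - 1) = (u n : R) - 1 ∧ ((u n : R) - 1) * e = (u n : R) - 1)
    (hinj : ∀ n ∈ Subgroup.closure (E ∪ (fun x => g * x * g⁻¹) '' E), u n = 1 → n = 1)
    (hC : C (relU (Matrix.scalar (Fin 2) f : Matrix (Fin 2) (Fin 2) R))) : Realized C g E := by
  have hq : Eqv e f ((u g : R) * e) (e * ((u g)⁻¹ : Rˣ)) :=
    { ff := hff, fe := hfe, ef := hef, ee := hee
      yx := by
        rw [mul_assoc, ← mul_assoc _ (u g : R) e, Units.inv_mul, one_mul, hee]
      xe := by rw [mul_assoc, hee]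
      ey := by rw [← mul_assoc, hee]
      fx := h1, xf := h2, fy := h3, yf := h4 }
  have hconj : ∀ n ∈ E, (u (g * n * g⁻¹) : R) =
      1 + (u g : R) * e * ((u n : R) - 1) * (e * ((u g)⁻¹ : Rˣ)) := by
    intro n hn
    obtain ⟨h5, h6⟩ := hE n hn
    have h7 : (u g : R) * e * ((u n : R) - 1) * (e * ((u g)⁻¹ : Rˣ)) =
        (u g : R) * ((u n : R) - 1) * ((u g)⁻¹ : Rˣ) := by
      calc (u g : R) * e * ((u n : R) - 1) * (e * ((u g)⁻¹ : Rˣ))
          = (u g : R) * ((e * ((u n : R) - 1)) * e) * ((u g)⁻¹ : Rˣ) := by noncomm_ring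
        _ = _ := by rw [h5, h6]
    rw [h7, mul_sub, sub_mul, mul_one, Units.mul_inv, map_mul, map_mul, map_inv]
    simp
  have hle : Subgroup.closure (E ∪ (fun x => g * x * g⁻¹) '' E) ≤ (relU f).comap u := by
    rw [Subgroup.closure_le]
    rintro _ (hx | ⟨n, hn, rfl⟩)
    · obtain ⟨h5, h6⟩ := hE _ hx
      constructor
      · rw [← h5, ← mul_assoc, hfe]
      · rw [← h6, mul_assoc, hef]
    · refine mem_relU.2 ?_
      rw [hconj n hn, add_sub_cancel_left]
      constructor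
      · rw [mul_assoc ((u g : R) * e), ← mul_assoc f, h1]
      · rw [mul_assoc, h4]
  refine ⟨relU (Matrix.scalar (Fin 2) f : Matrix (Fin 2) (Fin 2) R), inferInstance,
    ((dg.comp u).comp (Subgroup.closure (E ∪ (fun x => g * x * g⁻¹) '' E)).subtype).codRestrict _
      fun x => dg_mem (hle x.2), ⟨wu hq, wu_mem hq⟩, hC, ?_, fun x y hx hy => ?_⟩
  · rw [injective_iff_map_eq_one]
    intro x hx
    have h5 : dg (u x) = 1 := congrArg Subtype.val hx
    rw [← map_one (dg (R := R))] at h5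
    exact Subtype.ext (hinj x x.2 (dg_injective h5))
  · rw [eq_mul_inv_iff_mul_eq]
    apply Subtype.ext
    obtain ⟨h5, h6⟩ := hE _ hx
    refine (wu_conj hq (u x) (u y) ((u x : R) - 1) (by abel) h5 h6 ?_).symm
    rw [hy]
    exact hconj x hx

end Pool.Agent.Run7.h1.UG
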